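import Pool.Agent.helper24.NR.Spec

set_option autoImplicit false

namespace Pool.Agent.NR

open Finset

theorem CYB_nbr {V : Type} [Fintype V] [DecidableEq V] (σ : Equiv.Perm V)
    (h2 : ∀ v ∈ σ.support, ∃ a b, a ≠ b ∧ ∀ w, s(v, w) ∈ cycleEdges σ ↔ w = a ∨ w = b)
    (u v w : V) (hu : u ∈ σ.support) (hvw : v ≠ w)
    (h1 : s(u, v) ∈ cycleEdges σ) (h3 : s(u, w) ∈ cycleEdges σ) : σ u = v ∨ σ u = w := by
  obtain ⟨a, b, _, hab⟩ := h2 u hu
  have hs : s(u, σ u) ∈ cycleEdges σ := mem_image.2 ⟨u, hu, rfl⟩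
  have e1 := (hab _).1 hs
  have e2 := (hab _).1 h1
  have e3 := (hab _).1 h3
  rcases e1 with e1 | e1 <;> rcases e2 with e2 | e2 <;> rcases e3 with e3 | e3
  · exact absurd (e2.trans e3.symm) hvw
  · left; rw [e1, e2]
  · right; rw [e1, e3]
  · exact absurd (e2.trans e3.symm) hvw
  · exact absurd (e2.trans e3.symm) hvw
  · right; rw [e1, e3]
  · left; rw [e1, e2]
  · exact absurd (e2.trans e3.symm) hvw

theorem CYB (hCYA : CYA_stmt) : CYB_stmt := by
  intro V _ _ σ hσ h3 u v w huv hvw huw e1 e2 e3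
  obtain ⟨c1, c2, _⟩ := hCYA V σ hσ h3
  have hu := (c1 u v e1).1
  have hv := (c1 u v e1).2.1
  have hw := (c1 v w e2).2.1
  have e1' : s(v, u) ∈ cycleEdges σ := by rw [Sym2.eq_swap]; exact e1
  have e2' : s(w, v) ∈ cycleEdges σ := by rw [Sym2.eq_swap]; exact e2
  have e3' : s(w, u) ∈ cycleEdges σ := by rw [Sym2.eq_swap]; exact e3
  have s1 := CYB_nbr σ c2 u v w hu hvw e1 e3
  have s2 := CYB_nbr σ c2 v u w hv huw e1' e2
  have s3 := CYB_nbr σ c2 w u v hw huv e3' e2'
  have key : ∀ i : ℕ, (σ ^ i) u = u ∨ (σ ^ i) u = v ∨ (σ ^ i) u = w := by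
    intro i
    induction i with
    | zero => left; simp
    | succ i ih =>
      rw [pow_succ', Equiv.Perm.mul_apply]
      rcases ih with h | h | h
      · rw [h]; rcases s1 with h | h
        · right; left; exact h
        · right; right; exact h
      · rw [h]; rcases s2 with h | h
        · left; exact h
        · right; right; exact h
      · rw [h]; rcases s3 with h | h
        · left; exact h
        · right; left; exact h
  have hsub : σ.support ⊆ {u, v, w} := by
    intro z hz
    obtain ⟨i, hi⟩ := hσ.exists_pow_eq (Equiv.Perm.mem_support.1 hu) (Equiv.Perm.mem_support.1 hz)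
    have := key i
    rw [hi] at this
    simpa using this
  have hle : σ.support.card ≤ 3 := (card_le_card hsub).trans card_le_three
  omega

end Pool.Agent.NR
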