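import Pool.Agent.helper84.NR.Spec

set_option autoImplicit false

namespace Pool.Agent.helper84.NR

open scoped Classical
open Finset

theorem LOW_count {V F : Type} [Fintype V] [Fintype F] (M : PMap V F) (x : V) (B : F)
    (h2 : ∀ v, Adj M.toCyc x v →
      (univ.filter (fun A => OnV M.toCyc A x ∧ OnV M.toCyc A v)).card = 2)
    (h3 : ∀ A, OnV M.toCyc A x →
      (univ.filter (fun v => Adj M.toCyc x v ∧ OnV M.toCyc A v)).card = 2) :
    2 * (QQ M x B).card ≤
      (univ.filter (fun A => OnV M.toCyc A x ∧ ∃ s ∈ QQ M x B, OnV M.toCyc A s)).card +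
        (PP M x B).card := by
  set W := univ.filter (fun A => OnV M.toCyc A x ∧ ∃ s ∈ QQ M x B, OnV M.toCyc A s) with hW
  have e1 : ∀ s ∈ QQ M x B, (W.filter (fun A => OnV M.toCyc A s)).card = 2 := by
    intro s hs
    have hs' : Adj M.toCyc x s := ((mem_filter.1 hs).2).1
    rw [← h2 s hs']
    congr 1
    ext A
    simp only [hW, mem_filter, mem_univ, true_and]
    constructor
    · rintro ⟨⟨ha, _⟩, hb⟩
      exact ⟨ha, hb⟩
    · rintro ⟨ha, hb⟩
      exact ⟨⟨ha, s, hs, hb⟩, hb⟩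
  have e2 : ∑ s ∈ QQ M x B, (W.filter (fun A => OnV M.toCyc A s)).card = 2 * (QQ M x B).card := by
    rw [sum_congr rfl e1, sum_const, smul_eq_mul, Nat.mul_comm]
  have e3 : ∑ s ∈ QQ M x B, (W.filter (fun A => OnV M.toCyc A s)).card =
      ∑ A ∈ W, ((QQ M x B).filter (fun s => OnV M.toCyc A s)).card := by
    simp only [card_filter]
    exact sum_comm
  have e4 : ∀ A ∈ W, ((QQ M x B).filter (fun s => OnV M.toCyc A s)).card ≤
      1 + (if A ∈ PP M x B then 1 else 0) := by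
    intro A hA
    have hAx : OnV M.toCyc A x := ((mem_filter.1 hA).2).1
    by_cases hP : A ∈ PP M x B
    · rw [if_pos hP]
      refine le_trans ?_ (h3 A hAx).le
      apply card_le_card
      intro s hs
      have h := mem_filter.1 hs
      have h' := (mem_filter.1 h.1).2
      exact mem_filter.2 ⟨mem_univ _, h'.1, h.2⟩
    · rw [if_neg hP, Nat.add_zero, card_le_one]
      intro s hs t ht
      by_contra hne
      apply hP
      have h := mem_filter.1 hs
      have h' := (mem_filter.1 h.1).2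
      have g := mem_filter.1 ht
      have g' := (mem_filter.1 g.1).2
      exact mem_filter.2 ⟨mem_univ _, hAx, s, t, hne, h'.1, g'.1, h.2, g.2, h'.2, g'.2⟩
  have e5 := sum_le_sum e4
  rw [sum_add_distrib, sum_const, smul_eq_mul, Nat.mul_one, ← card_filter] at e5
  have e6 : (W.filter (fun A => A ∈ PP M x B)).card ≤ (PP M x B).card := by
    apply card_le_card
    intro A hA
    exact (mem_filter.1 hA).2
  omega

theorem LOW (hIDX : IDX_stmt) (hEDG : EDG_stmt) (hDEG : DEG_stmt) : LOW_stmt := by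
  intro V F _ _ M x y B hBad hBy hQ
  obtain ⟨_, d2, d3, _, _⟩ := hDEG V F M x
  have hcount := LOW_count M x B d2 d3
  obtain ⟨k0, hk0⟩ := hBy
  obtain ⟨i1, i2, _, i4, _⟩ := hIDX V F M.toCyc B k0
  obtain ⟨g1, _⟩ := hEDG V F M
  have hBy : OnV M.toCyc B y := ⟨k0, hk0⟩
  have hBx : ∀ A, OnV M.toCyc A x → A ≠ B := by
    rintro A hA rfl
    exact hBad.ne A ⟨hA, hBy⟩
  have hxy : ¬ Adj M.toCyc x y := by
    rintro ⟨f, hf⟩
    obtain ⟨a, b, _⟩ := g1 f x y hf
    exact hBad.ne f ⟨a, b⟩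
  have honB : ∀ k, OnV M.toCyc B (M.bd B (k0 + k)) := fun k => ⟨k0 + k, rfl⟩
  -- indices of the neighbours
  set K := (range (M.len B)).filter (fun k => Adj M.toCyc x (M.bd B (k0 + k))) with hK
  have hidx : ∀ s ∈ QQ M x B, ∃ a ∈ K, M.bd B (k0 + a) = s := by
    intro s hs
    have h := (mem_filter.1 hs).2
    obtain ⟨a, ha, hs'⟩ := i2 s h.2
    exact ⟨a, mem_filter.2 ⟨mem_range.2 ha, by rw [hs']; exact h.1⟩, hs'⟩
  have hKpos : ∀ a ∈ K, 1 ≤ a := by
    intro a ha
    by_contra hcon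
    have h0 : a = 0 := by omega
    have h := (mem_filter.1 ha).2
    rw [h0, Nat.add_zero, hk0] at h
    exact hxy h
  have hKlt : ∀ a ∈ K, a < M.len B := fun a ha => mem_range.1 (mem_filter.1 ha).1
  have hKadj : ∀ a ∈ K, Adj M.toCyc x (M.bd B (k0 + a)) := fun a ha => (mem_filter.1 ha).2
  have hKne : K.Nonempty := by
    obtain ⟨s, hs⟩ := hQ
    obtain ⟨a, ha, _⟩ := hidx s hs
    exact ⟨a, ha⟩
  have hk := K.min'_mem hKne
  have hl := K.max'_mem hKne
  set k := K.min' hKne with hkdef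
  set l := K.max' hKne with hldef
  have hkmin : ∀ a ∈ K, k ≤ a := fun a ha => K.min'_le a ha
  have hlmax : ∀ a ∈ K, a ≤ l := fun a ha => K.le_max' a ha
  obtain ⟨k1, hk1, hk1k, A1, hA1x, hA1k1, hA1k⟩ :=
    hBad.bm B k0 k hk0 (hKpos k hk) (hKlt k hk) (hKadj k hk)
  obtain ⟨k2, hk2, hk2l, A2, hA2x, hA2k2, hA2l⟩ :=
    hBad.bp B k0 l hk0 (hKpos l hl) (hKlt l hl) (hKadj l hl)
  have hkl : k ≤ l := hkmin l hl
  have hklt := hKlt k hk
  -- two vertices of a face at `x` on `B` with distant indices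
  have far : ∀ A, OnV M.toCyc A x → ∀ a b, 1 ≤ a → a + 2 ≤ b → b < M.len B →
      OnV M.toCyc A (M.bd B (k0 + a)) → OnV M.toCyc A (M.bd B (k0 + b)) → False := by
    intro A hAx a b ha hab hb h1 h2
    have hne : M.bd B (k0 + a) ≠ M.bd B (k0 + b) := by
      intro h
      have := i1 a b (by omega) hb h
      omega
    have hE := (M.poly A B (hBx A hAx) _ _ hne h1 h2 (honB a) (honB b)).2.1
    have := i4 a b (by omega) hb hE
    omega
  have hA1W : ∀ s ∈ QQ M x B, ¬ OnV M.toCyc A1 s := by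
    intro s hs hA
    obtain ⟨a, ha, rfl⟩ := hidx s hs
    have h1 := hkmin a ha
    have h2 : a ≠ k := by
      rintro rfl
      exact hA1k hA
    exact far A1 hA1x k1 a hk1 (by omega) (hKlt a ha) hA1k1 hA
  have hA2W : ∀ s ∈ QQ M x B, ¬ OnV M.toCyc A2 s := by
    intro s hs hA
    obtain ⟨a, ha, rfl⟩ := hidx s hs
    have h1 := hlmax a ha
    have h2 : a ≠ l := by
      rintro rfl
      exact hA2l hA
    exact far A2 hA2x a k2 (hKpos a ha) (by omega) hk2l hA hA2k2
  have hA12 : A1 ≠ A2 := by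
    rintro rfl
    exact far A1 hA1x k1 k2 hk1 (by omega) hk2l hA1k1 hA2k2
  set W := univ.filter (fun A => OnV M.toCyc A x ∧ ∃ s ∈ QQ M x B, OnV M.toCyc A s) with hW
  have h1W : A1 ∉ W := by
    intro h
    obtain ⟨s, hs, hA⟩ := ((mem_filter.1 h).2).2
    exact hA1W s hs hA
  have h2W : A2 ∉ W := by
    intro h
    obtain ⟨s, hs, hA⟩ := ((mem_filter.1 h).2).2
    exact hA2W s hs hA
  have hsub : insert A1 (insert A2 W) ⊆ NN M x B := by
    intro A hA
    rw [mem_insert, mem_insert] at hA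
    rcases hA with rfl | rfl | hA
    · exact mem_filter.2 ⟨mem_univ _, hA1x, _, hA1k1, honB k1⟩
    · exact mem_filter.2 ⟨mem_univ _, hA2x, _, hA2k2, honB k2⟩
    · have h := (mem_filter.1 hA).2
      obtain ⟨s, hs, hAs⟩ := h.2
      exact mem_filter.2 ⟨mem_univ _, h.1, s, hAs, ((mem_filter.1 hs).2).2⟩
  have hcard := card_le_card hsub
  rw [card_insert_of_notMem (by rw [mem_insert, not_or]; exact ⟨hA12, h1W⟩),
    card_insert_of_notMem h2W] at hcard
  omega

end Pool.Agent.helper84.NR
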